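import Pool.Agent.Helper52.AC.Limit

/-! MP_29fd35_lc, packet P2: the weight of the constructed set. -/

set_option autoImplicit false

namespace Pool.Agent.Helper7.AC

open Nat.Partrec (Code)
open Denumerable Encodable

theorem S_nonneg (X : ℕ → Bool) (a b : ℕ) : 0 ≤ S X a b := by
  unfold S
  apply Finset.sum_nonneg
  intro x _
  split_ifs <;> positivity

theorem S_add (X : ℕ → Bool) {a b c : ℕ} (hab : a ≤ b) (hbc : b ≤ c) :
    S X a c = S X a b + S X b c := by
  unfold S
  rw [Finset.sum_Ico_consecutive _ hab hbc]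

theorem S_congr {X Y : ℕ → Bool} {a b : ℕ} (h : ∀ x, a ≤ x → x < b → X x = Y x) :
    S X a b = S Y a b := by
  unfold S
  apply Finset.sum_congr rfl
  intro x hx
  rw [Finset.mem_Ico] at hx
  rw [h x hx.1 hx.2]

theorem S_ext_of_prefix {σ τ : List Bool} (h : σ <+: τ) :
    S (ext τ) 0 τ.length = S (ext σ) 0 σ.length + S (ext τ) σ.length τ.length := by
  rw [S_add (ext τ) (Nat.zero_le σ.length) h.length_le]
  congr 1
  exact S_congr fun x _ hx => ext_of_prefix h hx

theorem S_eq_zero {X : ℕ → Bool} {a b : ℕ} (h : ∀ x, a ≤ x → x < b → X x = false) :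
    S X a b = 0 := by
  unfold S
  apply Finset.sum_eq_zero
  intro x hx
  rw [Finset.mem_Ico] at hx
  simp [h x hx.1 hx.2]

theorem S_single (X : ℕ → Bool) (x : ℕ) (h : X x = true) :
    S X x (x + 1) = (1 / 2 : ℝ) ^ (Nat.unpair x).1 := by
  unfold S
  simp [h]

theorem le_req (O : ℕ → Bool) (p j : ℕ) : j ≤ req O p j := by
  unfold req
  exact (Nat.right_le_pair _ _).trans (Nat.right_le_pair _ _)

theorem req_fst (O : ℕ → Bool) (p j : ℕ) : (Nat.unpair (req O p j)).1 = tk p + ti p + 3 := by
  unfold req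
  rw [Nat.unpair_pair]

theorem addreq_length (O : ℕ → Bool) (σ : List Bool) (p : ℕ) :
    (addreq O σ p).length = req O p σ.length + 1 := by
  have := le_req O p σ.length
  unfold addreq
  simp only [List.length_append, List.length_replicate, List.length_singleton]
  omega

theorem prefix_addreq (O : ℕ → Bool) (σ : List Bool) (p : ℕ) : σ <+: addreq O σ p := by
  rw [addreq, List.append_assoc]
  exact List.prefix_append _ _

theorem ext_addreq_false (O : ℕ → Bool) (σ : List Bool) (p x : ℕ) (h1 : σ.length ≤ x)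
    (h2 : x < req O p σ.length) : ext (addreq O σ p) x = false := by
  unfold ext addreq
  rw [List.append_assoc, List.getD_append_right _ _ _ _ h1,
    List.getD_append _ _ _ _ (by rw [List.length_replicate]; omega)]
  rw [List.getD_eq_getElem _ _ (by rw [List.length_replicate]; omega)]
  exact List.getElem_replicate _

theorem ext_addreq_true (O : ℕ → Bool) (σ : List Bool) (p : ℕ) :
    ext (addreq O σ p) (req O p σ.length) = true := by
  have := le_req O p σ.length
  unfold ext addreq
  have hl : (σ ++ List.replicate (req O p σ.length - σ.length) false).length =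
      req O p σ.length := by
    simp only [List.length_append, List.length_replicate]
    omega
  rw [List.getD_append_right _ _ _ _ hl.le, hl]
  simp

theorem S_addreq (O : ℕ → Bool) (σ : List Bool) (p : ℕ) :
    S (ext (addreq O σ p)) σ.length (addreq O σ p).length =
      (1 / 2 : ℝ) ^ (tk p + ti p + 3) := by
  rw [addreq_length, S_add _ (le_req O p σ.length) (Nat.le_succ _),
    S_eq_zero (fun x h1 h2 => ext_addreq_false O σ p x h1 h2),
    S_single _ _ (ext_addreq_true O σ p), req_fst, zero_add]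

/-- Weight of the requirements that have acted. -/
noncomputable def wA (a : List ℕ) : ℝ := (a.map fun e => (1 / 2 : ℝ) ^ (e + 3)).sum

/-- Weight of the triples that have been processed. -/
noncomputable def wP (p : List ℕ) : ℝ := (p.map fun t => (1 / 2 : ℝ) ^ (tk t + ti t + 3)).sum

theorem budget_cons (p : ℕ) (l : List ℕ) (i : ℕ) :
    budget (p :: l) i = (if ti p = i then (1 / 2 : ℝ) ^ tk p else 0) + budget l i := by
  simp [budget]

/-- The invariants of the construction. -/
structure Inv (x : State) : Prop where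
  nodupA : x.2.1.Nodup
  nodupP : x.2.2.Nodup
  bud : ∀ i, budget x.2.2 i ≤ 2
  weight : S (ext x.1) 0 x.1.length ≤ wA x.2.1 + wP x.2.2

theorem Inv.stepA {A : ℕ → Bool} {e : ℕ} {σ σ' : List Bool} {l l' p : List ℕ}
    (h : Inv (σ, l, p)) (hA : StepA A e σ l σ' l') : Inv (σ', l', p) := by
  rcases hA with ⟨he, ⟨n, m, -, hF, -⟩, rfl⟩ | ⟨-, rfl, rfl⟩
  · refine ⟨List.nodup_cons.2 ⟨he, h.nodupA⟩, h.nodupP, h.bud, ?_⟩
    have h1 := h.weight
    have h2 := hF.2
    simp only at h1 ⊢
    rw [S_ext_of_prefix hF.1]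
    have h3 : wA (e :: l) = (1 / 2 : ℝ) ^ (e + 3) + wA l := by simp [wA]
    rw [h3]
    linarith
  · exact h

theorem Inv.stepB {O : ℕ → Bool} {e : ℕ} {σ σ' : List Bool} {a l l' : List ℕ}
    (h : Inv (σ, a, l)) (hB : StepB O e σ l σ' l') : Inv (σ', a, l') := by
  rcases hB with ⟨⟨hp, -, hb⟩, rfl, rfl⟩ | ⟨-, rfl, rfl⟩
  · refine ⟨h.nodupA, List.nodup_cons.2 ⟨hp, h.nodupP⟩, ?_, ?_⟩
    · intro i
      simp only
      rw [budget_cons]
      have h1 := h.bud i
      simp only at h1
      split_ifs with hi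
      · subst hi
        linarith
      · linarith
    · have h1 := h.weight
      simp only at h1 ⊢
      rw [S_ext_of_prefix (prefix_addreq O σ e), S_addreq]
      have h3 : wP (e :: l) = (1 / 2 : ℝ) ^ (tk e + ti e + 3) + wP l := by simp [wP]
      rw [h3]
      linarith
  · exact h

theorem Inv.appendFalse {σ : List Bool} {a l : List ℕ} (h : Inv (σ, a, l)) :
    Inv (σ ++ [false], a, l) := by
  refine ⟨h.nodupA, h.nodupP, h.bud, ?_⟩
  have h1 := h.weight
  simp only at h1 ⊢
  rw [S_ext_of_prefix (List.prefix_append σ [false])]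
  have h2 : S (ext (σ ++ [false])) σ.length (σ ++ [false]).length = 0 := by
    apply S_eq_zero
    intro x hx _
    unfold ext
    rw [List.getD_append_right _ _ _ _ hx]
    rcases Nat.eq_zero_or_pos (x - σ.length) with h0 | h0
    · rw [h0]; rfl
    · rw [List.getD_eq_default]
      rw [List.length_singleton]
      omega
  rw [h2]
  linarith

theorem Inv.step {A O : ℕ → Bool} {s : ℕ} {x y : State} (h : Inv x) (hs : Step A O s x y) :
    Inv y := by
  obtain ⟨σ', σ'', a', p', hA, hB, rfl⟩ := hs
  exact ((Inv.stepA (h : Inv (x.1, x.2.1, x.2.2)) hA).stepB hB).appendFalse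

theorem inv_run {A O : ℕ → Bool} {st : ℕ → State} (h : Run A O st) (s : ℕ) : Inv (st s) := by
  induction s with
  | zero =>
    rw [h.zero]
    refine ⟨List.nodup_nil, List.nodup_nil, fun i => by simp [budget], by simp [S, wA, wP]⟩
  | succ s ih => exact ih.step (h.step s)

theorem budget_le {A O : ℕ → Bool} {st : ℕ → State} (h : Run A O st) (s i : ℕ) :
    budget (st s).2.2 i ≤ 2 :=
  (inv_run h s).bud i

theorem sum_geom_le (I : Finset ℕ) : ∑ i ∈ I, (1 / 2 : ℝ) ^ (i + 3) ≤ 1 / 4 := by
  have h1 : Summable fun i : ℕ => (1 / 2 : ℝ) ^ i := summable_geometric_two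
  have h2 : ∑ i ∈ I, (1 / 2 : ℝ) ^ i ≤ 2 := by
    have h0 := h1.sum_le_tsum I (fun i _ => by positivity)
    rwa [tsum_geometric_two] at h0
  have h3 : ∑ i ∈ I, (1 / 2 : ℝ) ^ (i + 3) = (1 / 8) * ∑ i ∈ I, (1 / 2 : ℝ) ^ i := by
    rw [Finset.mul_sum]
    apply Finset.sum_congr rfl
    intro i _
    rw [pow_add]
    ring
  rw [h3]
  linarith

theorem wA_le {a : List ℕ} (ha : a.Nodup) : wA a ≤ 1 / 4 := by
  have h1 : wA a = ∑ e ∈ a.toFinset, (1 / 2 : ℝ) ^ (e + 3) := by
    rw [List.sum_toFinset _ ha]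
    rfl
  rw [h1]
  exact sum_geom_le _

theorem wP_eq (p : List ℕ) (I : Finset ℕ) (hI : ∀ t ∈ p, ti t ∈ I) :
    wP p = ∑ i ∈ I, (1 / 2 : ℝ) ^ (i + 3) * budget p i := by
  induction p with
  | nil => simp [wP, budget]
  | cons t p ih =>
    have h1 : wP (t :: p) = (1 / 2 : ℝ) ^ (tk t + ti t + 3) + wP p := by simp [wP]
    rw [h1, ih fun t ht => hI t (List.mem_cons_of_mem _ ht)]
    simp only [budget_cons, mul_add, Finset.sum_add_distrib]
    congr 1
    rw [Finset.sum_eq_single (ti t)]
    · simp only [if_true]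
      rw [← pow_add]
      congr 1
      omega
    · intro b _ hb
      rw [if_neg (Ne.symm hb), mul_zero]
    · intro hn
      exact absurd (hI t List.mem_cons_self) hn

theorem wP_le {p : List ℕ} (hb : ∀ i, budget p i ≤ 2) : wP p ≤ 1 / 2 := by
  rw [wP_eq p (p.map ti).toFinset (fun t ht => by
    rw [List.mem_toFinset]
    exact List.mem_map_of_mem ht)]
  calc ∑ i ∈ (p.map ti).toFinset, (1 / 2 : ℝ) ^ (i + 3) * budget p i
      ≤ ∑ i ∈ (p.map ti).toFinset, (1 / 2 : ℝ) ^ (i + 3) * 2 := by
        apply Finset.sum_le_sum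
        intro i _
        exact mul_le_mul_of_nonneg_left (hb i) (by positivity)
    _ = (∑ i ∈ (p.map ti).toFinset, (1 / 2 : ℝ) ^ (i + 3)) * 2 := by rw [Finset.sum_mul]
    _ ≤ 1 / 2 := by
        have := sum_geom_le (p.map ti).toFinset
        linarith

theorem weight_bound {A O : ℕ → Bool} {st : ℕ → State} {B : ℕ → Bool} (h : Run A O st)
    (hB : Lim st B) (T : ℕ) : S B 0 T ≤ 3 / 4 := by
  have hT := run_length h T
  have hI := inv_run h T
  have h1 : S B 0 (st T).1.length = S (ext (st T).1) 0 (st T).1.length := by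
    apply S_congr
    intro x _ hx
    conv_rhs => rw [← hB T]
    exact (ext_pre B _ x hx).symm
  have h2 : S B 0 (st T).1.length = S B 0 T + S B T (st T).1.length :=
    S_add B (Nat.zero_le _) hT
  have h3 := S_nonneg B T (st T).1.length
  have h4 := hI.weight
  have h5 := wA_le hI.nodupA
  have h6 := wP_le hI.bud
  linarith

end Pool.Agent.Helper7.AC
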