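import Pool.Agent.Helper7.AC.Defs

/-! MP_29fd35_lc, packet P1: the limit of a run. -/

set_option autoImplicit false

namespace Pool.Agent.Helper7.AC

open Nat.Partrec (Code)
open Denumerable Encodable

theorem pre_length (X : ℕ → Bool) (k : ℕ) : (pre X k).length = k := by
  simp [pre]

theorem ext_pre (X : ℕ → Bool) (k x : ℕ) (hx : x < k) : ext (pre X k) x = X x := by
  simp [ext, pre, List.getD, hx]

theorem pre_prefix (X : ℕ → Bool) {j k : ℕ} (h : j ≤ k) : pre X j <+: pre X k := by
  unfold pre
  obtain ⟨d, rfl⟩ := Nat.exists_eq_add_of_le h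
  rw [List.range_add, List.map_append]
  exact List.prefix_append _ _

theorem prefix_pre {X : ℕ → Bool} {k : ℕ} {ρ : List Bool} (h : ρ <+: pre X k) :
    ρ = pre X ρ.length := by
  have h1 : ρ.length ≤ k := by simpa [pre] using h.length_le
  have h2 := pre_prefix X h1
  exact (List.prefix_of_prefix_length_le h h2 (by simp [pre])).eq_of_length (by simp [pre])

/-- `ext` does not change on a prefix. -/
theorem ext_of_prefix {σ τ : List Bool} (h : σ <+: τ) {x : ℕ} (hx : x < σ.length) :
    ext τ x = ext σ x := by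
  obtain ⟨ρ, rfl⟩ := h
  unfold ext
  rw [List.getD_append _ _ _ _ hx]

theorem V_mono {c : Code} {σ τ : List Bool} {n m : ℕ} (h : σ <+: τ) (hV : V c σ n m) :
    V c τ n m := by
  obtain ⟨k, hk, hev⟩ := hV
  refine ⟨k, hk.trans h.length_le, ?_⟩
  have htake : τ.take k = σ.take k := by
    obtain ⟨ρ, rfl⟩ := h
    exact List.take_append_of_le_length hk
  rw [htake]
  exact Code.evaln_mono h.length_le hev

theorem StepA.mono {A : ℕ → Bool} {e : ℕ} {σ σ' : List Bool} {l l' : List ℕ}
    (h : StepA A e σ l σ' l') : σ <+: σ' := by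
  rcases h with ⟨-, ⟨n, m, -, hF, -⟩, -⟩ | ⟨-, h, -⟩
  · exact hF.1
  · rw [h]

theorem StepB.mono {O : ℕ → Bool} {p : ℕ} {σ σ' : List Bool} {l l' : List ℕ}
    (h : StepB O p σ l σ' l') : σ <+: σ' := by
  rcases h with ⟨-, h, -⟩ | ⟨-, h, -⟩
  · rw [h, addreq, List.append_assoc]
    exact List.prefix_append _ _
  · rw [h]

theorem Step.mono {A O : ℕ → Bool} {s : ℕ} {x y : State} (h : Step A O s x y) :
    x.1 <+: y.1 ∧ x.1.length < y.1.length := by
  obtain ⟨σ', σ'', a', p', hA, hB, rfl⟩ := h
  have h1 : x.1 <+: σ'' := hA.mono.trans hB.mono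
  refine ⟨h1.trans (List.prefix_append _ _), ?_⟩
  have := h1.length_le
  simp only [List.length_append, List.length_singleton]
  omega

theorem run_mono {A O : ℕ → Bool} {st : ℕ → State} (h : Run A O st) {s t : ℕ} (hst : s ≤ t) :
    (st s).1 <+: (st t).1 := by
  induction t, hst using Nat.le_induction with
  | base => exact List.prefix_refl _
  | succ t _ ih => exact ih.trans (h.step t).mono.1

theorem run_length {A O : ℕ → Bool} {st : ℕ → State} (h : Run A O st) (s : ℕ) :
    s ≤ (st s).1.length := by
  induction s with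
  | zero => exact Nat.zero_le _
  | succ s ih =>
    have := (h.step s).mono.2
    omega

theorem exists_lim {A O : ℕ → Bool} {st : ℕ → State} (h : Run A O st) :
    Lim st (fun n => ext (st (n + 1)).1 n) := by
  intro s
  apply List.ext_getElem
  · rw [pre_length]
  · intro i h1 h2
    rw [pre_length] at h1
    have e1 : (pre (fun n => ext (st (n + 1)).1 n) (st s).1.length)[i]'(by
        rw [pre_length]; exact h1) = ext (st (i + 1)).1 i := by
      simp [pre]
    have e2 : (st s).1[i] = ext (st s).1 i := by
      simp [ext, List.getD, h2]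
    rw [e1, e2]
    have hlen : i < (st (i + 1)).1.length := by
      have := run_length h (i + 1)
      omega
    rcases le_total s (i + 1) with hs | hs
    · exact ext_of_prefix (run_mono h hs) h2
    · exact (ext_of_prefix (run_mono h hs) hlen).symm

theorem lim_prefix {A O : ℕ → Bool} {st : ℕ → State} {B : ℕ → Bool} (_h : Run A O st)
    (hB : Lim st B) {s : ℕ} {ρ : List Bool} (hρ : ρ <+: (st s).1) : ρ = pre B ρ.length := by
  rw [← hB s] at hρ
  exact prefix_pre hρ

end Pool.Agent.Helper7.AC
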